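import Pool.Agent.H561.CM.A4
import Pool.Agent.H561.Q4.Ch4

set_option autoImplicit false

/-! The exponential sum over the numbers `d * P + 1 - d * m`, `m` a prime of `(u, v]`. -/

namespace Pool.Agent.H561.DD

open Finset
open Pool.Agent.H561.CM
open Pool.Agent.H807R2.Dav (ee norm_ee ee_add ee_int ee_zero ee_eq)

/-- the weights -/
noncomputable def bd (d P u v : ℕ) (j : ℤ) : ℝ :=
  if (d : ℤ) ∣ ((d : ℤ) * P + 1 - j) then lw u v (((d : ℤ) * P + 1 - j) / d) else 0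

lemma bd_at (d P u v : ℕ) (hd : 1 ≤ d) (m : ℤ) : bd d P u v ((d : ℤ) * P + 1 - d * m) = lw u v m := by
  unfold bd
  have e1 : (d : ℤ) * P + 1 - ((d : ℤ) * P + 1 - d * m) = d * m := by ring
  have hd0 : (d : ℤ) ≠ 0 := by positivity
  rw [e1, if_pos (dvd_mul_right _ _), Int.mul_ediv_cancel_left _ hd0]

/-- sums with the weights -/
lemma bd_sum (d P u v : ℕ) (hd : 1 ≤ d) {R : Type*} [Semiring R] (g : ℝ → ℤ → R) (hg : ∀ j, g 0 j = 0) :
    ∑ j ∈ Ioc 0 ((d * P : ℕ) : ℤ), g (bd d P u v j) j =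
      ∑ m ∈ Ioc 0 (P : ℤ), g (lw u v m) ((d : ℤ) * P + 1 - d * m) := by
  classical
  have hd0 : (0 : ℤ) < d := by exact_mod_cast hd
  have e1 : ∑ j ∈ Ioc 0 ((d * P : ℕ) : ℤ), g (bd d P u v j) j =
      ∑ j ∈ (Ioc 0 ((d * P : ℕ) : ℤ)).filter (fun j => (d : ℤ) ∣ ((d : ℤ) * P + 1 - j) ∧ 0 < ((d : ℤ) * P + 1 - j)),
        g (bd d P u v j) j := by
    rw [sum_filter]
    apply sum_congr rfl
    intro j hj
    rw [mem_Ioc] at hj
    split_ifs with h
    · rfl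
    · have : ¬ (d : ℤ) ∣ ((d : ℤ) * P + 1 - j) := by
        intro hc
        apply h
        refine ⟨hc, ?_⟩
        have := hj.2
        push_cast at this
        linarith
      unfold bd
      rw [if_neg this, hg]
  rw [e1]
  symm
  have key : ∀ m : ℤ, ((d : ℤ) * P + 1 - ((d : ℤ) * P + 1 - d * m)) = d * m := by intro m; ring
  apply sum_nbij' (fun m : ℤ => (d : ℤ) * P + 1 - d * m) (fun j : ℤ => ((d : ℤ) * P + 1 - j) / d)
  · intro m hm
    rw [mem_Ioc] at hm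
    rw [mem_filter, mem_Ioc, key]
    have h1 : (d : ℤ) * m ≤ d * P := mul_le_mul_of_nonneg_left hm.2 hd0.le
    have h2 : (d : ℤ) * 1 ≤ d * m := mul_le_mul_of_nonneg_left (by omega) hd0.le
    push_cast
    refine ⟨⟨by linarith, by linarith⟩, dvd_mul_right _ _, ?_⟩
    exact mul_pos hd0 hm.1
  · intro j hj
    rw [mem_filter, mem_Ioc] at hj
    obtain ⟨⟨h1, h2⟩, ⟨m, hm⟩, h4⟩ := hj
    rw [hm, Int.mul_ediv_cancel_left _ hd0.ne']
    rw [hm] at h4
    have hm0 : 0 < m := by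
      by_contra hc
      push Not at hc
      have := mul_nonpos_of_nonneg_of_nonpos hd0.le hc
      linarith
    rw [mem_Ioc]
    refine ⟨hm0, ?_⟩
    have h5 : (d : ℤ) * m ≤ d * P := by
      rw [← hm]
      linarith
    exact le_of_mul_le_mul_left h5 hd0
  · intro m _
    rw [key, Int.mul_ediv_cancel_left _ hd0.ne']
  · intro j hj
    rw [mem_filter] at hj
    obtain ⟨m, hm⟩ := hj.2.1
    rw [hm, Int.mul_ediv_cancel_left _ hd0.ne', ← hm]
    ring
  · intro m hm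
    rw [bd_at d P u v hd m]

lemma ht_bd (d P u v : ℕ) (hd : 1 ≤ d) (α : ℝ) :
    ‖ht (Ioc 0 ((d * P : ℕ) : ℤ)) (fun n => (bd d P u v n : ℂ)) α‖ =
      ‖ht (Ioc 0 (P : ℤ)) (fun n => (lw u v n : ℂ)) (Int.fract (-(d * α)))‖ := by
  unfold ht
  rw [bd_sum d P u v hd (fun x j => (x : ℂ) * ee (j * α)) (by intro j; simp)]
  have h1 : ∀ m ∈ Ioc 0 (P : ℤ), ((lw u v m : ℝ) : ℂ) * ee ((((d : ℤ) * P + 1 - d * m : ℤ) : ℝ) * α) =
      ee (((d : ℝ) * P + 1) * α) * (((lw u v m : ℝ) : ℂ) * ee (m * Int.fract (-(d * α)))) := by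
    intro m _
    have e1 : (((d : ℤ) * P + 1 - d * m : ℤ) : ℝ) * α = (((d : ℝ) * P + 1) * α + m * Int.fract (-(d * α))) +
        ((m * ⌊-((d : ℝ) * α)⌋ : ℤ) : ℝ) := by
      have := Int.self_sub_floor (-((d : ℝ) * α))
      rw [← this]
      push_cast
      ring
    rw [e1, ee_add, ee_add, ee_int, mul_one]
    ring
  rw [sum_congr rfl h1, ← mul_sum, norm_mul, norm_ee, one_mul]

/-- **The two alternatives.** -/
theorem dichD (A₁ : ℕ) : ∃ P₀ : ℕ, ∀ P : ℕ, P₀ ≤ P → ∀ V : ℕ, 4 ≤ V → Real.log P ^ (3 * A₁ + 17) ≤ V → V ^ 5 ≤ P →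
    ∀ H : ℕ, 6 * H * V ≤ P → V < 6 * H → ∀ u v : ℕ, u ≤ v → v ≤ P → ∀ d : ℕ, 1 ≤ d → ∀ α : ℝ, 0 ≤ α → α < 1 →
    ‖ht (Ioc 0 ((d * P : ℕ) : ℤ)) (fun n => (bd d P u v n : ℂ)) α‖ ≤ 2 * P / Real.log P ^ A₁ ∨
      ∃ q ∈ Icc 1 (d * V), ∃ c ∈ range (q + 1), |α - (c : ℝ) / q| * (6 * H) ≤ 1 := by
  obtain ⟨P₀, h0⟩ := dich A₁
  refine ⟨P₀, fun P hP V hV4 hV hV5 H hH hVH u v huv hv d hd α hα0 hα1 => ?_⟩
  rw [ht_bd d P u v hd α]
  rcases h0 P hP V hV4 hV hV5 H hH u v huv hv (Int.fract (-(d * α))) (Int.fract_nonneg _) (Int.fract_lt_one _) with h | h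
  · left
    exact h
  · right
    obtain ⟨q, hq, c, hc, hqc⟩ := h
    rw [mem_Icc] at hq
    rw [mem_range] at hc
    obtain ⟨F, hF⟩ : ∃ F : ℤ, F = ⌊-((d : ℝ) * α)⌋ := ⟨_, rfl⟩
    have hfr : Int.fract (-((d : ℝ) * α)) = -(d * α) - F := by rw [hF]; rfl
    rw [hfr] at hqc
    have hd0 : (0 : ℝ) < d := by exact_mod_cast hd
    have hq0 : (0 : ℝ) < q := by exact_mod_cast hq.1
    have hH0 : (0 : ℝ) < 6 * H := by exact_mod_cast (by omega : 0 < 6 * H)
    obtain ⟨c', hc'⟩ : ∃ c' : ℤ, c' = -(c + F * q) := ⟨_, rfl⟩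
    have e1 : α - (c' : ℝ) / ((d * q : ℕ) : ℝ) = -((-(d * α) - F - c / q) / d) := by
      rw [hc']
      push_cast
      field_simp
      ring
    have h1 : |α - (c' : ℝ) / ((d * q : ℕ) : ℝ)| * (6 * H) ≤ 1 / d := by
      rw [e1, abs_neg, abs_div, abs_of_pos hd0, div_mul_eq_mul_div]
      exact div_le_div_of_nonneg_right hqc hd0.le
    have hd1 : (1 : ℝ) ≤ d := by exact_mod_cast hd
    have h2 : (1 : ℝ) / d ≤ 1 := by rw [div_le_one hd0]; exact hd1
    -- the size of c'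
    have hqH : (q : ℝ) < 6 * H := by
      have : q < 6 * H := lt_of_le_of_lt hq.2 hVH
      exact_mod_cast this
    have h3 : |α * (d * q) - c'| < 1 := by
      have e2 : α * (d * q) - c' = (α - (c' : ℝ) / ((d * q : ℕ) : ℝ)) * (d * q) := by
        push_cast
        field_simp
      rw [e2, abs_mul, abs_of_pos (show (0 : ℝ) < d * q by positivity)]
      have e3 : |α - (c' : ℝ) / ((d * q : ℕ) : ℝ)| * d * (6 * H) ≤ 1 := by
        calc |α - (c' : ℝ) / ((d * q : ℕ) : ℝ)| * d * (6 * H) = |α - (c' : ℝ) / ((d * q : ℕ) : ℝ)| * (6 * H) * d := by ring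
          _ ≤ 1 / d * d := mul_le_mul_of_nonneg_right h1 hd0.le
          _ = 1 := by field_simp
      have e4 : |α - (c' : ℝ) / ((d * q : ℕ) : ℝ)| * d ≤ 1 / (6 * H) := by
        rw [le_div_iff₀ hH0]
        exact e3
      calc |α - (c' : ℝ) / ((d * q : ℕ) : ℝ)| * (d * q) = |α - (c' : ℝ) / ((d * q : ℕ) : ℝ)| * d * q := by ring
        _ ≤ 1 / (6 * H) * q := mul_le_mul_of_nonneg_right e4 hq0.le
        _ < 1 / (6 * H) * (6 * H) := mul_lt_mul_of_pos_left hqH (by positivity)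
        _ = 1 := by rw [one_div, inv_mul_cancel₀ hH0.ne']
    rw [abs_lt] at h3
    have hdq : (0 : ℝ) < d * q := by positivity
    have hc0 : 0 ≤ c' := by
      have : (-1 : ℝ) < c' := by
        have : 0 ≤ α * (d * q) := by positivity
        linarith
      have : (-1 : ℤ) < c' := by exact_mod_cast this
      omega
    have hcq : c' ≤ ((d * q : ℕ) : ℤ) := by
      have h5 : α * (d * q) < d * q := by nlinarith
      have h6 : (c' : ℝ) < ((d * q : ℕ) : ℝ) + 1 := by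
        push_cast
        linarith
      have : c' < ((d * q : ℕ) : ℤ) + 1 := by exact_mod_cast h6
      omega
    refine ⟨d * q, ?_, c'.toNat, ?_, ?_⟩
    · rw [mem_Icc]
      exact ⟨Nat.mul_pos hd hq.1, Nat.mul_le_mul_left d hq.2⟩
    · rw [mem_range]
      omega
    · have hcc : ((c'.toNat : ℕ) : ℝ) = (c' : ℝ) := by
        have : ((c'.toNat : ℕ) : ℤ) = c' := Int.toNat_of_nonneg hc0
        exact_mod_cast this
      rw [hcc]
      linarith

end Pool.Agent.H561.DD
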