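import Pool.Agent.H561.DD.D2
import Pool.Agent.H561.GN.G6
import Pool.Graph.R_seed8.Y820.LF.L

set_option autoImplicit false

/-! The main term for the pair `n`, `d n + a`. -/

namespace Pool.Agent.H561.DD

open Finset
open Pool.Agent.H561.GN
open Pool.Agent.H373R2.T7
open Pool.Agent.H560R3.GB (sing C₂)
open Pool.Agent.W93.GB
open Pool.Agent.W93.PP (MT MT_sing MT_one Cnt)
open Pool.Agent.Y820.LF (nuF singF AdmF PosF)
open Pool.Agent.helper24_UT (Ed)

lemma nuF_pair (a d : ℕ) (hco : Nat.Coprime a d) (p : ℕ) (hp : p.Prime) :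
    nuF (C1 (fun _ : Fin 1 => (d : ℤ))) (H0 (fun _ : Fin 1 => (a : ℤ))) p = if p ∣ a * d then 1 else 2 := by
  classical
  rw [Pool.Agent.Y820.LF.M0.nuF_cons hp]
  unfold rhoA
  split_ifs with h
  · rw [card_eq_zero.2]
    rw [filter_eq_empty_iff]
    intro r _ hr
    obtain ⟨h1, _, h2⟩ := hr
    have h2' : p ∣ d * r + a := by
      simp only at h2
      exact_mod_cast h2
    rcases (Nat.Prime.dvd_mul hp).1 h with h3 | h3
    · have h4 : p ∣ d * r := (Nat.dvd_add_left h3).1 h2'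
      rcases (Nat.Prime.dvd_mul hp).1 h4 with h5 | h5
      · exact Nat.not_coprime_of_dvd_of_dvd hp.one_lt h3 h5 hco
      · exact h1 h5
    · have h4 : p ∣ a := (Nat.dvd_add_right (h3.mul_right r)).1 h2'
      exact Nat.not_coprime_of_dvd_of_dvd hp.one_lt h4 h3 hco
  · have hd : ¬ (p : ℤ) ∣ (d : ℤ) := by
      intro hc
      exact h ((Int.natCast_dvd_natCast.1 hc).mul_left a)
    obtain ⟨r, hr, hr2⟩ := Pool.Agent.Y820.LF.L.exists_root hp (d : ℤ) (a : ℤ) hd
    have : (range p).filter (fun r => ¬ p ∣ r ∧ Pool.Agent.Y820.LF.M0.QQ (fun _ : Fin 1 => (d : ℤ)) (fun _ : Fin 1 => (a : ℤ)) p r) = {r} := by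
      ext s
      rw [mem_filter, mem_range, mem_singleton]
      constructor
      · rintro ⟨hs, _, _, hs2⟩
        exact Pool.Agent.Y820.LF.L.root_unique hp (d : ℤ) (a : ℤ) hd s r hs hr hs2 hr2
      · intro hs
        rw [hs]
        refine ⟨hr, ?_, 0, hr2⟩
        intro hc
        have h5 : p ∣ d * r + a := by exact_mod_cast hr2
        have h6 : p ∣ a := (Nat.dvd_add_right (hc.mul_left d)).1 h5
        exact h (h6.mul_right d)
    rw [this, card_singleton]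

lemma adm_pair (a d : ℕ) (hco : Nat.Coprime a d) (h2 : 2 ∣ a * d) :
    AdmF (C1 (fun _ : Fin 1 => (d : ℤ))) (H0 (fun _ : Fin 1 => (a : ℤ))) := by
  intro p hp
  rw [nuF_pair a d hco p hp]
  split_ifs with h
  · exact hp.one_lt
  · rcases Nat.lt_or_ge 2 p with h3 | h3
    · exact h3
    · exfalso
      have : p = 2 := le_antisymm h3 hp.two_le
      rw [this] at h
      exact h h2

lemma sing_pair (a d : ℕ) (hco : Nat.Coprime a d) (z : ℕ) :
    singF (C1 (fun _ : Fin 1 => (d : ℤ))) (H0 (fun _ : Fin 1 => (a : ℤ))) z = singZ (sh (a * d)) z := by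
  unfold singF singZ
  apply prod_congr rfl
  intro p hp
  have hpp := (mem_filter.1 hp).2
  rw [nuF_pair a d hco p hpp, nuP_sh _ _ hpp]

/-- **The main term.** -/
theorem main_d (V E1 W : ℕ) (hE1 : V + 6 ≤ E1) : ∃ X₀ : ℕ, ∀ X : ℕ, X₀ ≤ X → ∀ z : ℕ,
    Real.log X ^ E1 ≤ z → (z : ℝ) ≤ Real.log X ^ (E1 + 1) → ∀ P : ℕ, (X : ℝ) ^ (1 / 5 : ℝ) ≤ P → P ≤ X →
    ∀ a d : ℕ, 1 ≤ a → a ≤ X → 1 ≤ d → (d : ℝ) ≤ Real.log X ^ W → Nat.Coprime a d → 2 ∣ a * d →
    (∀ y : ℕ, y ≤ P → |∑ n ∈ Icc 1 y, ArithmeticFunction.vonMangoldt n * lamzI z ((a : ℤ) + d * n) - sing (a * d) * y| ≤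
      P / Real.log X ^ (V + 1)) ∧ 1 ≤ sing (a * d) ∧ sing (a * d) ≤ Real.log X ^ 2 := by
  obtain ⟨n0, h0⟩ := mainG 1 (E1 + 1) (V + 2) le_rfl
  obtain ⟨n1, h1⟩ := ev_L' 100
  obtain ⟨n2, h2⟩ := Vz_inv_small (E1 + 1)
  obtain ⟨n3, h3⟩ := ev_log' W 1
  refine ⟨n0 + n1 + n2 + n3 + 16, fun X hX z hz1 hz2 P hP hPX a d ha1 haX hd1 hdW hco h2d => ?_⟩
  have hL := h1 X (by omega)
  have hV := h2 X (by omega) z
  have a3 := h3 X (by omega)
  have g0 := h0 X (by omega) z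
  have hnl := natlog_le X (by omega)
  have hX0 : (0 : ℝ) < X := by exact_mod_cast (by omega : 0 < X)
  have hX1 : (1 : ℝ) ≤ X := by exact_mod_cast (by omega : 1 ≤ X)
  obtain ⟨L, hLd⟩ : ∃ L, L = Real.log (X : ℝ) := ⟨_, rfl⟩
  rw [← hLd] at hL hV a3 hz1 hz2 hdW g0 hnl ⊢
  have hL1 : 1 ≤ L := by linarith
  have hL0 : 0 < L := by linarith
  have hz0 : (1 : ℝ) ≤ z := (one_le_pow₀ hL1).trans hz1
  have hzn : 1 ≤ z := by exact_mod_cast hz0
  have hVz := hV hzn hz2
  have hzL : L ^ (V + 6) ≤ z := (pow_le_pow_right₀ hL1 hE1).trans hz1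
  obtain ⟨h, hh⟩ : ∃ h, h = a * d := ⟨_, rfl⟩
  have hh0 : h ≠ 0 := by
    rw [hh]
    positivity
  have hlogh : (Nat.log 2 h : ℝ) ≤ 2 * (2 * L) := by
    have e1 : h ≤ X * X := by
      rw [hh]
      apply Nat.mul_le_mul haX
      have e2 : (d : ℝ) ≤ X := by
        refine hdW.trans ?_
        rw [one_mul] at a3
        refine a3.trans ?_
        exact (Real.sqrt_le_left hX0.le).2 (by nlinarith)
      exact_mod_cast e2
    have e2 : 2 ^ (Nat.log 2 h) ≤ h := Nat.pow_log_le_self 2 hh0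
    have e3 : (2 : ℝ) ^ (Nat.log 2 h) ≤ X * X := by exact_mod_cast e2.trans e1
    have e4 := Real.log_le_log (by positivity) e3
    rw [Real.log_pow, Real.log_mul (by positivity) (by positivity), ← hLd] at e4
    have e5 := Real.log_two_gt_d9
    have e6 : (0 : ℝ) ≤ Nat.log 2 h := Nat.cast_nonneg _
    nlinarith
  have hL8 : 8 * (2 * L) ≤ z := by
    refine le_trans ?_ hzL
    calc 8 * (2 * L) ≤ L * L := by nlinarith
      _ = L ^ 2 := by ring
      _ ≤ L ^ (V + 6) := pow_le_pow_right₀ hL1 (by omega)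
  have hz2n : 2 ≤ z := by
    have : (2 : ℝ) ≤ z := by linarith
    exact_mod_cast this
  have hcnt : Cnt 1 h = 1 := by
    unfold Cnt
    rw [range_one, filter_singleton, if_pos (by simp), card_singleton]
  have h2h : 2 ∣ h := by rw [hh]; exact h2d
  obtain ⟨m1, m2, m3⟩ := MT_sing z 1 h (2 * L) (by linarith) le_rfl hzn h2h hh0 (by rw [hcnt]; exact Nat.one_pos)
    (hVz.trans (by linarith)) hlogh hL8
  rw [hcnt, Nat.cast_one, div_one] at m1 m2 m3
  rw [MT_one z h h2h hh0 hz2n] at m1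
  have hS1 := one_le_sing h
  rw [← hh]
  obtain ⟨S, hS⟩ : ∃ S, S = sing h := ⟨_, rfl⟩
  rw [← hS] at m1 m2 m3 hS1 ⊢
  refine ⟨?_, hS1, ?_⟩
  · intro y hy
    have hyX : (y : ℝ) ≤ P := by exact_mod_cast hy
    have hy0 : (0 : ℝ) ≤ y := Nat.cast_nonneg _
    have g1 := g0 hzn hz2 P hP hPX y hy (fun _ : Fin 1 => (d : ℤ)) (fun _ : Fin 1 => (a : ℤ)) (by
      intro _
      constructor
      · have : (1 : ℤ) ≤ a := by exact_mod_cast ha1
        have : (0 : ℤ) ≤ d := by positivity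
        linarith
      · have : (1 : ℤ) ≤ a := by exact_mod_cast ha1
        have : (0 : ℤ) ≤ (d : ℤ) * y := by positivity
        linarith) (adm_pair a d hco h2d)
    rw [sing_pair a d hco, ← hh] at g1
    obtain ⟨M, hM⟩ : ∃ M, M = singZ (sh h) z := ⟨_, rfl⟩
    rw [← hM] at g1 m1
    have e1 : ∑ n ∈ Icc 1 y, ArithmeticFunction.vonMangoldt n * ∏ _i : Fin 1, lamzI z ((d : ℤ) * (n : ℤ) + (a : ℤ)) =
        ∑ n ∈ Icc 1 y, ArithmeticFunction.vonMangoldt n * lamzI z ((a : ℤ) + d * n) := by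
      apply sum_congr rfl
      intro n _
      rw [Fin.prod_univ_one, add_comm]
    rw [e1] at g1
    have e2 : ∑ n ∈ Icc 1 y, ArithmeticFunction.vonMangoldt n * lamzI z ((a : ℤ) + d * n) - S * y =
        (∑ n ∈ Icc 1 y, ArithmeticFunction.vonMangoldt n * lamzI z ((a : ℤ) + d * n) - M * y) + (M - S) * y := by ring
    rw [e2]
    refine (abs_add_le _ _).trans ?_
    have e3 : |(M - S) * y| ≤ P / L ^ (V + 2) := by
      rw [abs_mul, abs_of_nonneg hy0]
      calc |M - S| * y ≤ (8 * (2 * L) ^ 2 / z) * P := mul_le_mul m1 hyX hy0 (by positivity)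
        _ ≤ (8 * (2 * L) ^ 2 / L ^ (V + 6)) * P := by gcongr
        _ = (32 / L ^ 2) * (P / L ^ (V + 2)) := by
            field_simp
            ring
        _ ≤ 1 * (P / L ^ (V + 2)) := by
            apply mul_le_mul_of_nonneg_right _ (by positivity)
            rw [div_le_one (by positivity)]
            nlinarith
        _ = _ := one_mul _
    have e4 : (P : ℝ) / L ^ (V + 1) = L * (P / L ^ (V + 2)) := by
      rw [show V + 2 = (V + 1) + 1 by ring, pow_succ L (V + 1)]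
      field_simp
    have e5 : 0 ≤ (P : ℝ) / L ^ (V + 2) := by positivity
    rw [e4]
    nlinarith
  · nlinarith

end Pool.Agent.H561.DD
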