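import Pool.Agent.H561.DD.D3

set_option autoImplicit false

/-! The exceptional set for one slope `d`. -/

namespace Pool.Agent.H561.DD

open Finset
open Pool.Agent.H561.GN
open Pool.Agent.H373R2.T7
open Pool.Agent.H560R3.GB (sing)
open Pool.Agent.W93.GB (one_le_sing)
open Pool.Agent.helper24_UT (Ed)

/-- the family -/
def fam (d a : ℕ) : Fin 1 → ℕ → ℤ := fun _ n => (a : ℤ) + d * n

lemma RR_fam (d a y : ℕ) : RR (fam d a) y = ∑ n ∈ Icc 1 y, ArithmeticFunction.vonMangoldt n * lamI ((a : ℤ) + d * n) := by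
  unfold RR fam
  apply sum_congr rfl
  intro n _
  rw [Fin.prod_univ_one]

open Classical in
/-- few prime powers -/
lemma excPd (U A W D : ℕ) (hWD : W ≤ D) : ∃ X₀ : ℕ, ∀ X : ℕ, X₀ ≤ X → ∀ d : ℕ, 1 ≤ d → (d : ℝ) ≤ Real.log X ^ W →
    ∀ P : ℕ, 1 ≤ P → (P : ℝ) * Real.log X ^ D ≤ X →
    (((Icc 1 X).filter (fun a : ℕ => (P : ℝ) / Real.log X ^ U < ((BP (fam d a) P).card : ℝ))).card : ℝ) ≤
      X / Real.log X ^ A := by
  obtain ⟨n1, h1⟩ := ev_L' 100
  obtain ⟨n2, h2⟩ := ev_log' (U + A + 2) 1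
  refine ⟨n1 + n2 + 4, fun X hX d hd1 hdW P hP1 hPX => ?_⟩
  have hL := h1 X (by omega)
  have a2 := h2 X (by omega)
  have hX0 : (0 : ℝ) < X := by exact_mod_cast (by omega : 0 < X)
  have hX1 : (1 : ℝ) ≤ X := by exact_mod_cast (by omega : 1 ≤ X)
  have hlog2 : Real.log ((2 * X : ℕ) : ℝ) ≤ 2 * Real.log X := by
    push_cast
    rw [Real.log_mul (by norm_num) (by linarith)]
    have : Real.log 2 ≤ Real.log X := Real.log_le_log (by norm_num) (by exact_mod_cast (by omega : 2 ≤ X))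
    linarith
  have hpp := card_pp (2 * X) (by omega)
  obtain ⟨L, hLd⟩ : ∃ L, L = Real.log (X : ℝ) := ⟨_, rfl⟩
  rw [← hLd] at hL a2 hdW hPX hlog2 ⊢
  rw [one_mul] at a2
  have hL1 : 1 ≤ L := by linarith
  have hL0 : 0 < L := by linarith
  have hP0 : (0 : ℝ) < P := by exact_mod_cast hP1
  have hss : √(X : ℝ) * √(X : ℝ) = X := Real.mul_self_sqrt hX0.le
  have hs0 : 0 < √(X : ℝ) := Real.sqrt_pos.2 hX0
  have hdP : d * P ≤ X := by
    have : (d : ℝ) * P ≤ X := by
      calc (d : ℝ) * P ≤ L ^ W * P := mul_le_mul_of_nonneg_right hdW hP0.le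
        _ ≤ L ^ D * P := mul_le_mul_of_nonneg_right (pow_le_pow_right₀ hL1 hWD) hP0.le
        _ = P * L ^ D := mul_comm _ _
        _ ≤ X := hPX
    exact_mod_cast this
  obtain ⟨PPs, hPPs⟩ : ∃ PPs : Finset ℕ, PPs = (Icc 1 (2 * X)).filter (fun b : ℕ => lamI (b : ℤ) ≠ lamP (b : ℤ)) := ⟨_, rfl⟩
  have hpp' : (PPs.card : ℝ) ≤ 16 * √(X : ℝ) * L := by
    rw [hPPs]
    refine hpp.trans ?_
    have e1 : √((2 * X : ℕ) : ℝ) ≤ 2 * √(X : ℝ) := by
      rw [Real.sqrt_le_left (by positivity), mul_pow, Real.sq_sqrt hX0.le]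
      push_cast
      linarith
    have e2 : 0 ≤ Real.log ((2 * X : ℕ) : ℝ) := Real.log_natCast_nonneg _
    calc 4 * √((2 * X : ℕ) : ℝ) * Real.log ((2 * X : ℕ) : ℝ) ≤ 4 * (2 * √(X : ℝ)) * (2 * L) := by gcongr
      _ = 16 * √(X : ℝ) * L := by ring
  obtain ⟨Bd, hBd⟩ : ∃ Bd : Finset ℕ, Bd = (Icc 1 X).filter (fun a : ℕ => (P : ℝ) / L ^ U < ((BP (fam d a) P).card : ℝ)) := ⟨_, rfl⟩
  rw [← hBd]
  have hsum : ∑ a ∈ Icc 1 X, ((BP (fam d a) P).card : ℝ) ≤ P * PPs.card := by
    have e1 : ∀ a ∈ Icc 1 X, ((BP (fam d a) P).card : ℝ) = ∑ n ∈ Icc 1 P, (if a + d * n ∈ PPs then (1 : ℝ) else 0) := by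
      intro a ha
      rw [mem_Icc] at ha
      unfold BP
      rw [card_filter]
      push_cast
      apply sum_congr rfl
      intro n hn
      rw [mem_Icc] at hn
      have h5 : a + d * n ≤ 2 * X := by
        have : d * n ≤ d * P := Nat.mul_le_mul_left d hn.2
        omega
      have h6 : (∃ i : Fin 1, lamI (fam d a i n) ≠ lamP (fam d a i n)) ↔ a + d * n ∈ PPs := by
        rw [hPPs, mem_filter, mem_Icc]
        constructor
        · rintro ⟨i, hi⟩
          refine ⟨⟨by omega, h5⟩, ?_⟩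
          unfold fam at hi
          push_cast
          exact hi
        · rintro ⟨_, h7⟩
          refine ⟨0, ?_⟩
          unfold fam
          push_cast at h7
          exact h7
      simp only [h6]
    rw [sum_congr rfl e1, sum_comm]
    have e2 : ∀ n ∈ Icc 1 P, ∑ a ∈ Icc 1 X, (if a + d * n ∈ PPs then (1 : ℝ) else 0) ≤ PPs.card := by
      intro n _
      rw [← sum_filter, sum_const, nsmul_eq_mul, mul_one]
      have : ((Icc 1 X).filter (fun a => a + d * n ∈ PPs)).card ≤ PPs.card := by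
        apply card_le_card_of_injOn (fun a => a + d * n)
        · intro a ha
          exact (mem_filter.1 ha).2
        · intro a _ b _ hab
          simp only at hab
          omega
      exact_mod_cast this
    refine (sum_le_sum e2).trans (le_of_eq ?_)
    rw [sum_const, Nat.card_Icc, nsmul_eq_mul, Nat.add_sub_cancel]
  have e1 : (Bd.card : ℝ) * (P / L ^ U) ≤ P * PPs.card := by
    refine le_trans ?_ hsum
    rw [← nsmul_eq_mul]
    refine le_trans (card_nsmul_le_sum Bd (fun a : ℕ => ((BP (fam d a) P).card : ℝ)) _ ?_) ?_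
    · intro a ha
      rw [hBd, mem_filter] at ha
      exact ha.2.le
    · apply sum_le_sum_of_subset_of_nonneg
      · rw [hBd]
        exact filter_subset _ _
      · intro a _ _
        positivity
  have e2 : (Bd.card : ℝ) ≤ 16 * √(X : ℝ) * L * L ^ U := by
    have e3 : (Bd.card : ℝ) * (P / L ^ U) ≤ (16 * √(X : ℝ) * L * L ^ U) * (P / L ^ U) := by
      refine e1.trans ?_
      calc (P : ℝ) * PPs.card ≤ P * (16 * √(X : ℝ) * L) := mul_le_mul_of_nonneg_left hpp' hP0.le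
        _ = (16 * √(X : ℝ) * L * L ^ U) * (P / L ^ U) := by field_simp
    exact le_of_mul_le_mul_right e3 (by positivity)
  refine e2.trans ?_
  rw [le_div_iff₀ (by positivity)]
  calc 16 * √(X : ℝ) * L * L ^ U * L ^ A = 16 * √(X : ℝ) * L ^ (U + A + 1) := by ring
    _ ≤ L * √(X : ℝ) * L ^ (U + A + 1) := by
        gcongr
        linarith
    _ = √(X : ℝ) * L ^ (U + A + 2) := by ring
    _ ≤ √(X : ℝ) * √(X : ℝ) := mul_le_mul_of_nonneg_left a2 hs0.le
    _ = X := hss

open Classical in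
/-- **The exceptional set for one slope.** -/
theorem exc_d (e A W : ℕ) (ε : ℝ) (he : 5 ≤ e) (hε : 0 < ε) (hε1 : ε ≤ 1) : ∃ D : ℕ, ∃ X₀ : ℕ, ∀ X : ℕ, X₀ ≤ X →
    ∀ d : ℕ, 1 ≤ d → (d : ℝ) ≤ Real.log X ^ W →
    (((Icc 1 X).filter (fun a : ℕ => X ≤ 2 * a ∧ Nat.Coprime a d ∧ 2 ∣ a * d ∧
      ¬ Gd X D (W + 1) (1 / 4 + 3 / e : ℝ) ε (fam d a) (sing (a * d)))).card : ℝ) ≤ X / Real.log X ^ A := by
  obtain ⟨V, hV⟩ : ∃ V, V = W + 1 + 1 + 4 := ⟨_, rfl⟩
  obtain ⟨E₀, D, hWD, hms⟩ := msd e (A + 2 + 3 * V + 2 + 9) W he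
  obtain ⟨E1, hE1⟩ : ∃ E1, E1 = E₀ + V + 6 := ⟨_, rfl⟩
  obtain ⟨n1, h1⟩ := hms (E1 + 1)
  obtain ⟨n2, h2⟩ := main_d V E1 W (by omega)
  obtain ⟨n3, h3⟩ := exc_of (k := 1) V (A + 2) 2
  obtain ⟨n4, h4⟩ := excPd (W + 1 + 1 + 5) (A + 2) W D hWD
  obtain ⟨n5, h5⟩ := fam_of 1 (W + 1) A D (1 / 4 + 3 / e : ℝ) ε 1 (by
    have : (0 : ℝ) ≤ 3 / e := by positivity
    linarith) hε hε1 one_pos
  obtain ⟨n6, h6⟩ := ev_L' 100
  obtain ⟨n7, h7⟩ := Filter.eventually_atTop.1 (Pool.Agent.helper24_UT.Sil2.ev_pow (V + 2 + 4) (1 / 4) 1 (by norm_num))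
  refine ⟨D, n1 + n2 + n3 + n4 + n5 + n6 + n7 + 4, fun X hX d hd1 hdW => ?_⟩
  have a1 := h1 X (by omega)
  have a2 := h2 X (by omega)
  have a3 := h3 X (by omega)
  have a4 := h4 X (by omega) d hd1 hdW
  have hL := h6 X (by omega)
  have a7 := h7 X (by omega)
  have hX1 : (1 : ℝ) ≤ X := by exact_mod_cast (by omega : 1 ≤ X)
  have hX0 : (0 : ℝ) < X := by linarith
  have hL1 : 1 ≤ Real.log X := by linarith
  have hL0 : 0 < Real.log X := by linarith
  have he0 : (0 : ℝ) ≤ 3 / e := by positivity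
  obtain ⟨Ω, hΩ⟩ : ∃ Ω : Finset ℕ, Ω = (Icc 1 X).filter (fun a : ℕ => X ≤ 2 * a ∧ Nat.Coprime a d ∧ 2 ∣ a * d) := ⟨_, rfl⟩
  have hmem : ∀ a ∈ Ω, 1 ≤ a ∧ a ≤ X ∧ X ≤ 2 * a ∧ Nat.Coprime a d ∧ 2 ∣ a * d := by
    intro a ha
    rw [hΩ, mem_filter, mem_Icc] at ha
    exact ⟨ha.1.1, ha.1.2, ha.2⟩
  have hmain := h5 X (by omega) ℕ Ω (fun a => fam d a) (fun a => sing (a * d)) X hX0.le
    (fun a _ => one_le_sing _) (by
      intro a ha i n hn1 hn2
      obtain ⟨g1, g2, g3, _, _⟩ := hmem a ha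
      unfold fam
      push_cast
      have haX : (a : ℝ) ≤ X := by exact_mod_cast g2
      have hXa : (X : ℝ) ≤ 2 * a := by exact_mod_cast g3
      have hn0 : (0 : ℝ) ≤ n := Nat.cast_nonneg n
      have hd0 : (0 : ℝ) ≤ d := Nat.cast_nonneg d
      constructor
      · have e1 : (X : ℝ) / Real.log X ^ 2 ≤ X / 2 := by
          apply div_le_div_of_nonneg_left hX0.le (by norm_num)
          nlinarith
        have : (0 : ℝ) ≤ d * n := by positivity
        linarith
      · have e1 : (d : ℝ) * n ≤ X := by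
          calc (d : ℝ) * n ≤ Real.log X ^ W * n := mul_le_mul_of_nonneg_right hdW hn0
            _ ≤ Real.log X ^ D * n := mul_le_mul_of_nonneg_right (pow_le_pow_right₀ hL1 hWD) hn0
            _ = n * Real.log X ^ D := mul_comm _ _
            _ ≤ X := hn2
        have e2 : (2 : ℝ) ≤ Real.log X ^ (W + 1) := by
          calc (2 : ℝ) ≤ Real.log X := by linarith
            _ ≤ Real.log X ^ (W + 1) := le_self_pow₀ hL1 (by omega)
        nlinarith) (by
      intro j hj1 hj2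
      have hPn1 : 1 ≤ 2 ^ j := Nat.one_le_two_pow
      have hPX : ((2 ^ j : ℕ) : ℝ) ≤ X := by
        refine le_trans ?_ hj2
        exact le_mul_of_one_le_right (Nat.cast_nonneg _) (one_le_pow₀ hL1)
      have hPXn : 2 ^ j ≤ X := by exact_mod_cast hPX
      obtain ⟨z, hz⟩ : ∃ z, z = ⌈Real.log X ^ E1⌉₊ := ⟨_, rfl⟩
      have hz1 : Real.log X ^ E1 ≤ z := by rw [hz]; exact Nat.le_ceil _
      have hz2 : (z : ℝ) ≤ Real.log X ^ (E1 + 1) := by
        have e1 := (Nat.ceil_lt_add_one (show 0 ≤ Real.log X ^ E1 by positivity)).le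
        rw [← hz] at e1
        have e2 : (1 : ℝ) ≤ Real.log X ^ E1 := one_le_pow₀ hL1
        rw [pow_succ]
        nlinarith
      have hz0 : Real.log X ^ E₀ ≤ z := (pow_le_pow_right₀ hL1 (by omega)).trans hz1
      have hX15 : (X : ℝ) ^ (1 / 5 : ℝ) ≤ ((2 ^ j : ℕ) : ℝ) := by
        refine le_trans ?_ hj1
        apply Real.rpow_le_rpow_of_exponent_le hX1
        linarith
      have hPL : Real.log X ^ (V + 2 + 4) ≤ ((2 ^ j : ℕ) : ℝ) := by
        rw [one_mul] at a7
        refine a7.trans (le_trans ?_ hj1)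
        apply Real.rpow_le_rpow_of_exponent_le hX1
        linarith
      constructor
      · have hb := a3 ℕ Ω (fun a => fam d a) (fun a => sing (a * d))
          (fun a y => ∑ n ∈ Icc 1 y, ArithmeticFunction.vonMangoldt n * lamzI z ((a : ℤ) + d * n)) X (2 ^ j) hX0.le hPL
          (fun a ha => by
            obtain ⟨g1, g2, g3, g4, g5⟩ := hmem a ha
            obtain ⟨_, m2, m3⟩ := a2 z hz1 hz2 (2 ^ j) hX15 hPXn a d g1 g2 hd1 hdW g4 g5
            exact ⟨by linarith, m3⟩)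
          (fun a ha y hy => by
            obtain ⟨g1, g2, g3, g4, g5⟩ := hmem a ha
            exact (a2 z hz1 hz2 (2 ^ j) hX15 hPXn a d g1 g2 hd1 hdW g4 g5).1 y hy)
          (fun y hy => by
            have g1 := a1 z hz0 hz2 (2 ^ j) hj1 hj2 0 y (Nat.zero_le _) hy d hd1 hdW
            refine le_trans ?_ g1
            have e1 : ∀ a ∈ Ω, (RR (fam d a) y - ∑ n ∈ Icc 1 y, ArithmeticFunction.vonMangoldt n * lamzI z ((a : ℤ) + d * n)) ^ 2 =
                (∑ m ∈ Ioc 0 y, ArithmeticFunction.vonMangoldt m * Ed z ((a : ℤ) + d * m)) ^ 2 := by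
              intro a _
              congr 1
              rw [RR_fam, ← sum_sub_distrib]
              have : Icc 1 y = Ioc 0 y := by
                ext n
                rw [mem_Ioc, mem_Icc]
                omega
              rw [this]
              apply sum_congr rfl
              intro n _
              unfold Ed
              ring
            rw [sum_congr rfl e1]
            apply sum_le_sum_of_subset_of_nonneg
            · rw [hΩ]
              exact filter_subset _ _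
            · intro a _ _
              positivity)
        rw [hV] at hb
        exact hb
      · refine le_trans ?_ (a4 (2 ^ j) hPn1 hj2)
        have : Ω ⊆ Icc 1 X := by
          rw [hΩ]
          exact filter_subset _ _
        exact_mod_cast card_le_card (filter_subset_filter _ this))
  refine le_trans ?_ hmain
  rw [hΩ, filter_filter]
  apply le_of_eq
  congr 2
  ext a
  simp only [mem_filter]
  tauto

end Pool.Agent.H561.DD
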