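import Pool.Agent.H561.DD.D4
import Pool.Agent.H561.CM.A9

set_option autoImplicit false

/-! The exceptional set for all slopes; normalisation by `a`. -/

namespace Pool.Agent.H561.DD

open Finset
open Pool.Agent.H561.GN
open Pool.Agent.H561.CM (dyadic)
open Pool.Agent.H373R2.T7
open Pool.Agent.H560R3.GB (sing)
open Pool.Agent.W93.GB (one_le_sing)

/-- change of the normalisation -/
lemma norm_change (k : ℕ) (N G l L ε : ℝ) (hG : 0 ≤ G) (hl : 0 < l) (hlL : l ≤ L) (hr : 1 - ε / 2 ≤ (l / L) ^ k)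
    (hε : 0 < ε) (h : |N - G / L ^ k| ≤ (ε / 2) * (G / L ^ k)) : |N - G / l ^ k| ≤ ε * (G / l ^ k) := by
  have hL : 0 < L := lt_of_lt_of_le hl hlL
  have e1 : G / L ^ k = (G / l ^ k) * (l / L) ^ k := by
    rw [div_pow]
    field_simp
  have h1 : (l / L) ^ k ≤ 1 := pow_le_one₀ (by positivity) ((div_le_one hL).2 hlL)
  obtain ⟨M, hM⟩ : ∃ M, M = G / l ^ k := ⟨_, rfl⟩
  have hM0 : 0 ≤ M := by rw [hM]; positivity
  rw [e1, ← hM] at h
  rw [← hM]
  have h2 : M * (l / L) ^ k ≤ M := mul_le_of_le_one_right hM0 h1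
  have h3 : M * (1 - ε / 2) ≤ M * (l / L) ^ k := mul_le_mul_of_nonneg_left hr hM0
  have h4 : (ε / 2) * (M * (l / L) ^ k) ≤ (ε / 2) * M := mul_le_mul_of_nonneg_left h2 (by positivity)
  rw [abs_le] at h ⊢
  constructor <;> nlinarith [h.1, h.2]

/-- the number of the primes `q` of `(u, v]` for which `a + q d` is prime -/
noncomputable def cnt (a d : ℕ) (u v : ℝ) : ℕ := ((Ioc ⌊u⌋₊ ⌊v⌋₊).filter (fun q => q.Prime ∧ (a + q * d).Prime)).card

/-- for all the slopes `d` up to `(log a) ^ W` with `gcd (a, d) = 1` and `2 ∣ a d` and for all windows `(u, v]` with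
`a ^ θ ≤ v ≤ a / (log a) ^ B` and `v - u ≥ v / (log a) ^ W` the formula of Hardy and Littlewood holds up to a relative
error `ε` -/
def HoldsD (ε θ : ℝ) (W B a : ℕ) : Prop := ∀ d : ℕ, 1 ≤ d → (d : ℝ) ≤ Real.log a ^ W → Nat.Coprime a d → 2 ∣ a * d →
  ∀ u v : ℝ, 0 ≤ u → (a : ℝ) ^ θ ≤ v → v * Real.log a ^ B ≤ a → v / Real.log a ^ W ≤ v - u →
    |(cnt a d u v : ℝ) - sing (a * d) * (v - u) / (Real.log v * Real.log a)| ≤
      ε * (sing (a * d) * (v - u) / (Real.log v * Real.log a))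

lemma cnt_eq (a d : ℕ) (u v : ℝ) : cnt a d u v = (PS (fam d a) ⌊u⌋₊ ⌊v⌋₊).card := by
  unfold cnt PS fam
  congr 1
  ext q
  simp only [mem_filter, forall_const]
  have : ((a : ℤ) + d * q).toNat = a + q * d := by
    have : ((a : ℤ) + d * q) = ((a + q * d : ℕ) : ℤ) := by push_cast; ring
    rw [this, Int.toNat_natCast]
  rw [this]

open Classical in
theorem excA (A W : ℕ) (ε δ : ℝ) (hε : 0 < ε) (hε1 : ε ≤ 1) (hδ : 0 < δ) : ∃ B : ℕ, ∃ X₀ : ℕ, ∀ X : ℕ, X₀ ≤ X →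
    (((Icc 1 X).filter (fun a : ℕ => ¬ HoldsD ε (1 / 4 + δ) W B a ∧ X ≤ 2 * a)).card : ℝ) ≤ X / Real.log X ^ A := by
  obtain ⟨e, he⟩ : ∃ e : ℕ, e = ⌈6 / δ⌉₊ + 5 := ⟨_, rfl⟩
  have he0 : (0 : ℝ) < e := by
    have : 0 < e := by omega
    exact_mod_cast this
  have heδ : 3 / (e : ℝ) ≤ δ / 2 := by
    have h1 : 6 / δ ≤ e := by
      rw [he]
      push_cast
      have := Nat.le_ceil (6 / δ)
      linarith
    rw [div_le_iff₀ hδ] at h1
    rw [div_le_iff₀ he0]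
    linarith
  obtain ⟨D, n1, h1⟩ := exc_d e (A + W) W (ε / 2) (by omega) (by positivity) (by linarith)
  obtain ⟨n2, h2⟩ := ev_L' (2 ^ (D + 4) + 4 / ε + 100)
  obtain ⟨n3, h3⟩ := Filter.eventually_atTop.1 (Pool.Agent.helper24_UT.Sil2.ev_pow 0 (δ / 4) 2 (by positivity))
  refine ⟨D + 1, n1 + n2 + n3 + 4, fun X hX => ?_⟩
  have a1 := h1 X (by omega)
  have hL := h2 X (by omega)
  have a3 := h3 X (by omega)
  rw [pow_zero, mul_one] at a3
  have hX4 : (4 : ℝ) ≤ X := by exact_mod_cast (by omega : 4 ≤ X)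
  have hX0 : (0 : ℝ) < X := by linarith
  have p1 : (0 : ℝ) < 2 ^ (D + 4) := by positivity
  have p2 : (0 : ℝ) < 4 / ε := by positivity
  obtain ⟨L, hLd⟩ : ∃ L, L = Real.log (X : ℝ) := ⟨_, rfl⟩
  rw [← hLd] at hL a1 ⊢
  have hL1 : 1 ≤ L := by linarith
  have hL0 : 0 < L := by linarith
  obtain ⟨Bd, hBd⟩ : ∃ Bd : ℕ → Finset ℕ, Bd = fun d => (Icc 1 X).filter (fun a : ℕ => X ≤ 2 * a ∧ Nat.Coprime a d ∧
    2 ∣ a * d ∧ ¬ Gd X D (W + 1) (1 / 4 + 3 / e : ℝ) (ε / 2) (fam d a) (sing (a * d))) := ⟨_, rfl⟩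
  have hsub : (Icc 1 X).filter (fun a : ℕ => ¬ HoldsD ε (1 / 4 + δ) W (D + 1) a ∧ X ≤ 2 * a) ⊆
      (Icc 1 ⌊L ^ W⌋₊).biUnion Bd := by
    intro a ha
    rw [mem_filter, mem_Icc] at ha
    obtain ⟨⟨ha1, haX⟩, hnH, hXa⟩ := ha
    by_contra hcon
    apply hnH
    intro d hd1 hdW hco h2d u v hu hv hvB hvu
    have haXr : (a : ℝ) ≤ X := by exact_mod_cast haX
    have hXar : (X : ℝ) ≤ 2 * a := by exact_mod_cast hXa
    have ha0 : (0 : ℝ) < a := by linarith
    obtain ⟨l, hl⟩ : ∃ l, l = Real.log (a : ℝ) := ⟨_, rfl⟩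
    rw [← hl] at hdW hvB hvu ⊢
    have hlL : l ≤ L := by
      rw [hl, hLd]
      exact Real.log_le_log ha0 haXr
    have hlL2 : L ≤ l + 1 := by
      have e1 : Real.log X ≤ Real.log (2 * a) := Real.log_le_log hX0 hXar
      rw [Real.log_mul (by norm_num) ha0.ne'] at e1
      have := Real.log_two_lt_d9
      rw [hLd, hl]
      linarith
    have hl1 : 1 ≤ l := by linarith
    have hl0 : 0 < l := by linarith
    have hdL : (d : ℝ) ≤ L ^ W := hdW.trans (pow_le_pow_left₀ hl0.le hlL W)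
    have hdmem : d ∈ Icc 1 ⌊L ^ W⌋₊ := by
      rw [mem_Icc]
      exact ⟨hd1, Nat.le_floor hdL⟩
    have hGd : Gd X D (W + 1) (1 / 4 + 3 / e : ℝ) (ε / 2) (fam d a) (sing (a * d)) := by
      by_contra hc
      apply hcon
      rw [mem_biUnion]
      refine ⟨d, hdmem, ?_⟩
      rw [hBd]
      simp only [mem_filter, mem_Icc]
      exact ⟨⟨ha1, haX⟩, hXa, hco, h2d, hc⟩
    have ha1r : (1 : ℝ) ≤ a := by exact_mod_cast ha1
    have hv1 : 1 ≤ v := (Real.one_le_rpow ha1r (by positivity)).trans hv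
    have hv0 : 0 < v := by linarith
    have hg := hGd u v hu (by
      refine le_trans ?_ hv
      have e1 : (X : ℝ) ^ (1 / 4 + 3 / e : ℝ) ≤ (2 * a : ℝ) ^ (1 / 4 + 3 / e : ℝ) :=
        Real.rpow_le_rpow hX0.le hXar (by positivity)
      refine e1.trans ?_
      rw [Real.mul_rpow (by norm_num) ha0.le]
      have e2 : (2 : ℝ) ^ (1 / 4 + 3 / e : ℝ) ≤ 2 := by
        calc (2 : ℝ) ^ (1 / 4 + 3 / e : ℝ) ≤ (2 : ℝ) ^ (1 : ℝ) := by
              apply Real.rpow_le_rpow_of_exponent_le (by norm_num)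
              have : (5 : ℝ) ≤ e := by exact_mod_cast (by omega : 5 ≤ e)
              have : 3 / (e : ℝ) ≤ 3 / 5 := div_le_div_of_nonneg_left (by norm_num) (by norm_num) this
              linarith
          _ = 2 := Real.rpow_one 2
      have e3 : (2 : ℝ) ≤ (a : ℝ) ^ (δ / 2) := by
        have e4 : √(X : ℝ) ≤ a := by
          have e5 : √(X : ℝ) * √(X : ℝ) = X := Real.mul_self_sqrt hX0.le
          have e6 : 2 ≤ √(X : ℝ) := by
            apply Real.le_sqrt_of_sq_le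
            linarith
          nlinarith
        calc (2 : ℝ) ≤ (X : ℝ) ^ (δ / 4) := a3
          _ = (√(X : ℝ)) ^ (δ / 2) := by
              rw [Real.sqrt_eq_rpow, ← Real.rpow_mul hX0.le]
              congr 1
              ring
          _ ≤ (a : ℝ) ^ (δ / 2) := Real.rpow_le_rpow (Real.sqrt_nonneg _) e4 (by positivity)
      calc (2 : ℝ) ^ (1 / 4 + 3 / e : ℝ) * (a : ℝ) ^ (1 / 4 + 3 / e : ℝ)
          ≤ (a : ℝ) ^ (δ / 2) * (a : ℝ) ^ (1 / 4 + 3 / e : ℝ) :=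
            mul_le_mul_of_nonneg_right (e2.trans e3) (by positivity)
        _ = (a : ℝ) ^ (δ / 2 + (1 / 4 + 3 / e) : ℝ) := by rw [← Real.rpow_add ha0]
        _ ≤ (a : ℝ) ^ (1 / 4 + δ : ℝ) := by
            apply Real.rpow_le_rpow_of_exponent_le ha1r
            linarith) (by
      rw [← hLd]
      refine le_trans ?_ (hvB.trans haXr)
      have e1 : 4 * L ^ D ≤ l ^ (D + 1) := by
        calc 4 * L ^ D ≤ 4 * (2 * l) ^ D := by
              apply mul_le_mul_of_nonneg_left _ (by norm_num)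
              exact pow_le_pow_left₀ hL0.le (by linarith) D
          _ = (4 * 2 ^ D) * l ^ D := by rw [mul_pow]; ring
          _ ≤ l * l ^ D := by
              apply mul_le_mul_of_nonneg_right _ (by positivity)
              have : (2 : ℝ) ^ (D + 4) = 16 * 2 ^ D := by rw [pow_add]; ring
              have : (0 : ℝ) < 2 ^ D := by positivity
              linarith
          _ = l ^ (D + 1) := by ring
      calc 4 * v * L ^ D = v * (4 * L ^ D) := by ring
        _ ≤ v * l ^ (D + 1) := mul_le_mul_of_nonneg_left e1 hv0.le) (by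
      rw [← hLd]
      refine le_trans ?_ hvu
      apply div_le_div_of_nonneg_left hv0.le (by positivity)
      calc l ^ W ≤ L ^ W := pow_le_pow_left₀ hl0.le hlL W
        _ ≤ L ^ (W + 1) := pow_le_pow_right₀ hL1 (by omega))
    rw [← cnt_eq, ← hLd] at hg
    have hS := one_le_sing (a * d)
    have hlv : 0 ≤ Real.log v := Real.log_nonneg hv1
    have hvu0 : 0 ≤ v - u := (div_nonneg hv0.le (pow_nonneg hl0.le W)).trans hvu
    have e1 : ∀ t : ℝ, sing (a * d) * (v - u) / (Real.log v * t) = (sing (a * d) * (v - u) / Real.log v) / t ^ 1 := by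
      intro t
      rw [pow_one, div_div]
    rw [e1]
    apply norm_change 1 _ _ l L ε
    · apply div_nonneg _ hlv
      exact mul_nonneg (by linarith) hvu0
    · exact hl0
    · exact hlL
    · rw [pow_one, le_div_iff₀ hL0]
      have : 2 ≤ ε * L := by
        have : 4 / ε ≤ L := by linarith
        rw [div_le_iff₀ hε] at this
        linarith
      linarith
    · exact hε
    · rw [← div_div] at hg
      exact hg
  have hc : ∀ d ∈ Icc 1 ⌊L ^ W⌋₊, ((Bd d).card : ℝ) ≤ X / L ^ (A + W) := by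
    intro d hd
    rw [mem_Icc] at hd
    have e1 := a1 d hd.1 ((Nat.le_floor_iff (by positivity)).1 hd.2)
    rw [hBd]
    exact e1
  calc (((Icc 1 X).filter (fun a : ℕ => ¬ HoldsD ε (1 / 4 + δ) W (D + 1) a ∧ X ≤ 2 * a)).card : ℝ)
      ≤ (((Icc 1 ⌊L ^ W⌋₊).biUnion Bd).card : ℝ) := by exact_mod_cast card_le_card hsub
    _ ≤ ∑ d ∈ Icc 1 ⌊L ^ W⌋₊, ((Bd d).card : ℝ) := by exact_mod_cast card_biUnion_le
    _ ≤ ∑ d ∈ Icc 1 ⌊L ^ W⌋₊, X / L ^ (A + W) := sum_le_sum hc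
    _ = ⌊L ^ W⌋₊ * (X / L ^ (A + W)) := by rw [sum_const, Nat.card_Icc, nsmul_eq_mul, Nat.add_sub_cancel]
    _ ≤ L ^ W * (X / L ^ (A + W)) := by
        apply mul_le_mul_of_nonneg_right (Nat.floor_le (by positivity)) (by positivity)
    _ = X / L ^ A := by
        rw [pow_add]
        field_simp

open Classical in
/-- **All slopes, all windows, almost all `a`.** -/
theorem all_slopes (A W : ℕ) (ε δ : ℝ) (hε : 0 < ε) (hε1 : ε ≤ 1) (hδ : 0 < δ) : ∃ B : ℕ, ∃ X₀ : ℕ, ∀ X : ℕ, X₀ ≤ X →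
    (((Icc 1 X).filter (fun a : ℕ => ¬ HoldsD ε (1 / 4 + δ) W B a)).card : ℝ) ≤ X / Real.log X ^ A := by
  obtain ⟨B, X0, h⟩ := excA (A + 1) W ε δ hε hε1 hδ
  obtain ⟨X1, h1⟩ := dyadic (fun a : ℕ => ¬ HoldsD ε (1 / 4 + δ) W B a) A X0 (by
    intro X hX
    refine le_trans (le_of_eq ?_) (h X hX)
    congr 2
    ext m
    simp only [mem_filter])
  refine ⟨B, X1, fun X hX => ?_⟩
  refine le_trans (le_of_eq ?_) (h1 X hX)
  congr 2
  ext m
  simp only [mem_filter]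

end Pool.Agent.H561.DD
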